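import Pool.Agent.BLP.StmtsK

/-!
# Squad BLP, row K_BXE: the continuous extension of a nice point
-/

namespace Pool.Agent.BLP.H47

open MeasureTheory ProbabilityTheory Filter Topology Finset
open scoped ENNReal

noncomputable section

theorem bx_spec {x : XX} (h : Nice x) : Cts (BX x) ∧ (∀ r, BX x r 0 = 0) ∧
    ∀ (r : ℤ) (q : ℚ), BX x r q = x (r, q) := by
  unfold BX
  rw [dif_pos h]
  exact h.choose_spec

/-- Row K_BXE. -/
theorem bxe : BxeStmt := by
  refine ⟨fun x => ?_, fun x b hc h0 hb => ?_, fun x hx => (bx_spec hx).2.2⟩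
  · by_cases h : Nice x
    · exact ⟨(bx_spec h).1, (bx_spec h).2.1⟩
    · unfold BX
      rw [dif_neg h]
      exact ⟨fun r => continuous_const, fun r => rfl⟩
  · have h : Nice x := ⟨b, hc, h0, hb⟩
    funext r
    refine Continuous.ext_on Rat.denseRange_cast ((bx_spec h).1 r) (hc r) ?_
    rintro _ ⟨q, rfl⟩
    rw [(bx_spec h).2.2 r q, hb r q]

end

end Pool.Agent.BLP.H47
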