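import Pool.Agent.BLP.StmtsK

/-!
# Squad BLP, row K_LIN: the law of the increments and independence
-/

namespace Pool.Agent.BLP.H47

open MeasureTheory ProbabilityTheory Filter Topology Finset
open scoped ENNReal

noncomputable section

/-- differences of a Gaussian process form a Gaussian process -/
theorem gauss_sub {Ω S T : Type} [MeasurableSpace Ω] {P : Measure Ω} {Z : T → Ω → ℝ}
    (hZ : IsGaussianProcess Z P) (f g : S → T) :
    IsGaussianProcess (fun s ω => Z (f s) ω - Z (g s) ω) P := by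
  classical
  refine hZ.of_isGaussianProcess fun s => ⟨{f s, g s},
    { toFun := fun x => x ⟨f s, by simp⟩ - x ⟨g s, by simp⟩
      map_add' := fun x y => by
        simp only [Pi.add_apply]
        ring
      map_smul' := fun c x => by
        simp only [Pi.smul_apply, smul_eq_mul, RingHom.id_apply]
        ring
      cont := by fun_prop }, fun ω => rfl⟩

section bm

variable {Ω : Type} [MeasurableSpace Ω] {P : Measure Ω} {B : Ω → Env}

theorem memLp (h : IsBM P B) (r : ℤ) (t : ℝ) : MemLp (fun ω => B ω r t) 2 P :=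
  (h.gauss.hasGaussianLaw_eval (r, t)).memLp_two

theorem cov_B (h : IsBM P B) (r : ℤ) (s : ℝ) (r' : ℤ) (t : ℝ) :
    covariance (fun ω => B ω r s) (fun ω => B ω r' t) P =
      if r = r' then (|s| + |t| - |s - t|) / 2 else 0 := by
  have := h.gauss.isProbabilityMeasure
  rw [covariance_eq_sub (memLp h r s) (memLp h r' t), h.mean, h.mean, mul_zero, sub_zero]
  exact h.cov r s r' t

theorem cov_sub (h : IsBM P B) (r : ℤ) (s t u v : ℝ) :
    covariance (fun ω => B ω r t - B ω r s) (fun ω => B ω r v - B ω r u) P =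
      (|t - u| + |s - v| - |t - v| - |s - u|) / 2 := by
  have := h.gauss.isProbabilityMeasure
  rw [covariance_fun_sub_fun_sub (memLp h r t) (memLp h r s) (memLp h r v) (memLp h r u)]
  simp only [cov_B h, if_true]
  ring

theorem mean_sub (h : IsBM P B) (r : ℤ) (s t : ℝ) : ∫ ω, (B ω r t - B ω r s) ∂P = 0 := by
  have := h.gauss.isProbabilityMeasure
  rw [integral_sub ((memLp h r t).integrable (by norm_num))
    ((memLp h r s).integrable (by norm_num)), h.mean, h.mean, sub_zero]

end bm

/-- Row K_LIN. -/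
theorem lin : LinStmt := by
  intro Ω _ P B h
  have hP := h.gauss.isProbabilityMeasure
  refine ⟨fun r s t hst => ?_, ?_, fun r s => ?_⟩
  · have h1 : HasGaussianLaw (fun ω => B ω r t - B ω r s) P :=
      h.gauss.hasGaussianLaw_fun_sub (s := (r, t)) (t := (r, s))
    rw [h1.map_eq_gaussianReal, mean_sub h r s t]
    congr 2
    rw [← covariance_self h1.aemeasurable, cov_sub h r s t s t, sub_self, sub_self, abs_zero,
      abs_sub_comm s t, abs_of_nonneg (sub_nonneg.2 hst)]
    ring
  · have h1 : IsGaussianProcess (fun (p : (_ : ℤ) × ℚ) ω => B ω p.1 p.2) P :=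
      h.gauss.comp_right (fun p : (_ : ℤ) × ℚ => (p.1, (p.2 : ℝ)))
    refine IsGaussianProcess.iIndepFun_of_covariance_eq_zero
      (X := fun (r : ℤ) (q : ℚ) ω => B ω r q) h1
      (fun r q => (h.gauss.hasGaussianLaw_eval (r, (q : ℝ))).aemeasurable) ?_
    intro r r' hr q q'
    rw [cov_B h, if_neg hr]
  · have h1 := gauss_sub h.gauss
      (fun u : {t : ℝ // t ≤ s} ⊕ {t : ℝ // s ≤ t} =>
        (r, Sum.elim (fun t : {t : ℝ // t ≤ s} => (t : ℝ)) (fun t : {t : ℝ // s ≤ t} => (t : ℝ)) u))
      (fun _ => (r, s))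
    have h2 : (fun (u : {t : ℝ // t ≤ s} ⊕ {t : ℝ // s ≤ t}) ω =>
        B ω r (Sum.elim (fun t : {t : ℝ // t ≤ s} => (t : ℝ)) (fun t : {t : ℝ // s ≤ t} => (t : ℝ)) u) -
          B ω r s) =
        Sum.elim (fun (t : {t : ℝ // t ≤ s}) ω => B ω r t - B ω r s)
          (fun (t : {t : ℝ // s ≤ t}) ω => B ω r t - B ω r s) := by
      funext u ω
      rcases u with u | u
      · rfl
      · rfl
    have h3 : IsGaussianProcess (Sum.elim (fun (t : {t : ℝ // t ≤ s}) ω => B ω r t - B ω r s)
          (fun (t : {t : ℝ // s ≤ t}) ω => B ω r t - B ω r s)) P := by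
      rw [← h2]
      exact h1
    have hm : ∀ t : ℝ, AEMeasurable (fun ω => B ω r t - B ω r s) P := fun t =>
      (h.gauss.hasGaussianLaw_fun_sub (s := (r, t)) (t := (r, s))).aemeasurable
    refine IsGaussianProcess.indepFun_of_covariance_eq_zero h3 (fun t => hm t) (fun t => hm t) ?_
    rintro ⟨u, hu⟩ ⟨t, ht⟩
    rw [cov_sub h r s u s t, sub_self, abs_zero, abs_sub_comm u s, abs_sub_comm s t,
      abs_sub_comm u t, abs_of_nonneg (sub_nonneg.2 hu), abs_of_nonneg (sub_nonneg.2 ht),
      abs_of_nonneg (sub_nonneg.2 (hu.trans ht))]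
    ring

end

end Pool.Agent.BLP.H47
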