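import Pool.Agent.BLP.StmtsM

/-!
# Squad BLP, row M_FIN: the law of large numbers
-/

namespace Pool.Agent.BLP.H47

open MeasureTheory ProbabilityTheory Filter Topology Finset
open scoped ENNReal

noncomputable section

/-- Row M_FIN. -/
theorem m_fin (gsa : GsaStmt) (fek : FekStmt) (pos : PosStmt) (llu : LluStmt) : FcmStmt := by
  intro X _ μ B h
  obtain ⟨h1, h2, C, h3⟩ := gsa X μ B h
  obtain ⟨c, hc1, hc2⟩ := fek (gg μ B) C h2 h3
  have hc0 : 0 < c := by
    have h4 := hc2 2 (by norm_num)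
    have h5 := pos X μ B h
    push_cast at h4
    linarith
  have he : ∀ n : ℕ, aa μ B n / Real.sqrt n = gg μ B n / n := by
    intro n
    rw [h1]
    rcases Nat.eq_zero_or_pos n with h0 | h0
    · subst h0
      simp
    · have hn : (0 : ℝ) < n := by exact_mod_cast h0
      have hs : 0 < Real.sqrt n := Real.sqrt_pos.2 hn
      rw [div_eq_div_iff hs.ne' hn.ne', mul_assoc, Real.mul_self_sqrt hn.le]
  refine ⟨c, hc0, ?_, fun n hn => ?_, fun A η hA hη => llu X μ B h c hc0.le hc1 A η hA hη⟩
  · rw [funext he]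
    exact hc1
  · have hn0 : (0 : ℝ) < n := by exact_mod_cast hn
    have hs : 0 < Real.sqrt n := Real.sqrt_pos.2 hn0
    have h4 := hc2 n hn
    rw [h1] at h4
    have h5 : c * (n : ℝ) = c * Real.sqrt n * Real.sqrt n := by
      rw [mul_assoc, Real.mul_self_sqrt hn0.le]
    rw [h5] at h4
    exact le_of_mul_le_mul_right h4 hs

end

end Pool.Agent.BLP.H47
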