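import Pool.Agent.BLP.StmtsM

/-!
# Squad BLP, row M_OSL: the oscillation of the last level
-/

namespace Pool.Agent.BLP.H47

open MeasureTheory ProbabilityTheory Filter Topology Finset
open scoped ENNReal

noncomputable section

/-- Row M_OSL. -/
theorem m_osl (lev : LvyStmt) : OslStmt := by
  intro X _ μ B h A η hA hη
  have hc : 0 < η ^ 2 / (2 * A) := by positivity
  have h1 : Tendsto (fun n : ℕ => ENNReal.ofReal (4 * Real.exp (-(η ^ 2 / (2 * A) * n)))) atTop
      (𝓝 0) := by
    have h2 : Tendsto (fun n : ℕ => 4 * Real.exp (-(η ^ 2 / (2 * A) * n))) atTop (𝓝 (4 * 0)) := by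
      refine Tendsto.const_mul 4 ?_
      refine Real.tendsto_exp_neg_atTop_nhds_zero.comp ?_
      exact tendsto_natCast_atTop_atTop.const_mul_atTop hc
    rw [mul_zero] at h2
    have h3 := ENNReal.tendsto_ofReal h2
    rwa [ENNReal.ofReal_zero] at h3
  refine tendsto_of_tendsto_of_tendsto_of_le_of_le' tendsto_const_nhds h1
    (Eventually.of_forall fun n => zero_le) ?_
  filter_upwards [eventually_ge_atTop 1] with n hn
  have hn0 : (0 : ℝ) < n := by exact_mod_cast hn
  have h2 := lev X μ B h n 0 (A * n) (η * n) (by positivity) (by positivity)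
  have e : -((η * n) ^ 2) / (2 * (A * n - 0)) = -(η ^ 2 / (2 * A) * n) := by
    field_simp
    ring
  rw [e] at h2
  exact h2

end

end Pool.Agent.BLP.H47
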